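import Pool.Agent.helper69.DH.SpecR2

set_option autoImplicit false

open Filter Topology MeasureTheory
open scoped commutatorElement

namespace Pool.Agent.helper90.DH

open Pool.Agent.helper64.D2

theorem rWTC (hBAS : rBAS_stmt) : rWTC_stmt := by
  classical
  intro P D x s i hs
  obtain ⟨-, hci, -, -, -, -, -, hSg, -, -⟩ := hBAS
  have key : ∀ t, t ≤ s → ci s x / 2 ^ (s - t) = ci t x := fun t ht => (hci s t x ht).symm
  constructor
  · intro hn hx
    have h : ¬ ∃ t, t ≤ s ∧ ci s x / 2 ^ (s - t) ∈ D.K t := by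
      rintro ⟨t, ht, hk⟩
      exact hn ⟨t, ht, by rwa [key t ht] at hk⟩
    unfold rwt
    rw [dif_neg h, if_pos (hSg s x hs hx)]
  · intro τ hτ hK hmin
    have h : ∃ t, t ≤ s ∧ ci s x / 2 ^ (s - t) ∈ D.K t := ⟨τ, hτ, by rw [key τ hτ]; exact hK⟩
    have hf : Nat.find h = τ := by
      rw [Nat.find_eq_iff]
      refine ⟨⟨hτ, by rw [key τ hτ]; exact hK⟩, fun t ht hh => hmin t ht ?_⟩
      rw [← key t hh.1]; exact hh.2
    have hw : rwt P D s i (ci s x) = if i ∈ D.G τ (ci τ x) then 1 / ((D.G τ (ci τ x)).card : ℝ) else 0 := by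
      unfold rwt
      rw [dif_pos h, hf, key τ hτ]
    exact ⟨fun hi => by rw [hw, if_pos hi], fun hi => by rw [hw, if_neg hi]⟩

end Pool.Agent.helper90.DH
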